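import Pool.Agent.Helper21.MT.Transv
import Pool.Agent.Helper35.OR.GR1
import Pool.Agent.Helper2.AV.PDefs

/-!
Block SG: the symplectic group and the special orthogonal group are generated by the elements
`1 + x` with `x` skew and `x ^ 2 = 0`.
-/

set_option linter.unusedSimpArgs false
set_option linter.unusedSectionVars false

open Module

namespace AV

open MTP

section SpG
variable {K : Type*} [Field K] [IsAlgClosed K] [CharZero K] {W : Type*} [AddCommGroup W]
  [Module K W] [FiniteDimensional K W] {b : LinearMap.BilinForm K W}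

theorem sp_gen (hb : b.Nondegenerate) (ha : b.IsAlt) (M : Submonoid (Module.End K W))
    (hM : ∀ x, IsSk b x → x * x = 0 → 1 + x ∈ M) {g : Module.End K W}
    (hg : ∀ v w, b (g v) (g w) = b v w) : g ∈ M := by
  apply sp_mem_of_transvections hb ha M ?_ hg
  intro c u
  apply hM
  · intro v w
    have h1 : b v u = - b u v := (ha.neg_eq u v).symm
    simp only [LinearMap.smul_apply, TT_apply, map_smul, smul_eq_mul, h1]
    ring
  · rw [smul_mul_smul_comm, TT_sq ha, smul_zero]

end SpG

namespace SOG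

section w
variable {K : Type*} [Field K] {W : Type*} [AddCommGroup W] [Module K W]

/-- The skew operator of two vectors. -/
noncomputable def XX (b : LinearMap.BilinForm K W) (u v : W) : Module.End K W :=
  (b u).smulRight v - (b v).smulRight u

variable {b : LinearMap.BilinForm K W}

lemma XX_apply (u v z : W) : XX b u v z = b u z • v - b v z • u := rfl

lemma XX_sk (ha : ∀ v w, b v w = b w v) (u v : W) : IsSk b (XX b u v) := by
  intro z w
  simp only [XX_apply, map_sub, map_smul, LinearMap.sub_apply, LinearMap.smul_apply, smul_eq_mul]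
  rw [ha z v, ha z u]
  ring

lemma XX_sq (ha : ∀ v w, b v w = b w v) {u v : W} (hu : b u u = 0) (hv : b v v = 0)
    (huv : b u v = 0) : XX b u v * XX b u v = 0 := by
  ext z
  have hvu : b v u = 0 := by rw [ha, huv]
  simp only [Module.End.mul_apply, XX_apply, map_sub, map_smul, hu, hv, huv, hvu, smul_eq_mul,
    mul_zero, zero_smul, sub_zero, sub_self, smul_zero, LinearMap.zero_apply]

/-- The reflection in `a`. -/
noncomputable def sR (b : LinearMap.BilinForm K W) (a : W) : Module.End K W :=
  1 - (2 / b a a) • (b a).smulRight a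

lemma sR_apply (a z : W) : sR b a z = z - (2 / b a a) • (b a z • a) := rfl

/-- Reflections in multiples agree. -/
lemma sR_smul {c : K} (hc : c ≠ 0) (a : W) : sR b (c • a) = sR b a := by
  ext z
  rw [sR_apply, sR_apply]
  congr 1
  by_cases h : b a a = 0
  · simp [h]
  simp only [map_smul, LinearMap.smul_apply, smul_eq_mul, smul_smul]
  congr 1
  field_simp

lemma sR_sq {a : W} (h : b a a ≠ 0) : sR b a * sR b a = 1 := by
  ext z
  rw [Module.End.mul_apply, sR_apply, sR_apply, Module.End.one_apply]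
  simp only [map_sub, map_smul, smul_eq_mul, smul_smul, sub_smul]
  rw [← sub_eq_zero]
  match_scalars
  · ring
  · field_simp
    ring

/-- The product of two reflections in orthogonal vectors, as a product of six elements. -/
lemma six (ha : ∀ v w, b v w = b w v) (M : Submonoid (Module.End K W))
    (hM : ∀ x, IsSk b x → x * x = 0 → 1 + x ∈ M) {e₁ e₂ f₁ f₂ : W}
    (h1 : b e₁ e₁ = 0) (h2 : b e₂ e₂ = 0) (h3 : b f₁ f₁ = 0) (h4 : b f₂ f₂ = 0)
    (h5 : b e₁ e₂ = 0) (h6 : b f₁ f₂ = 0) (h7 : b e₁ f₂ = 0) (h8 : b e₂ f₁ = 0)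
    (h9 : b e₁ f₁ = 1) (h10 : b e₂ f₂ = 1) {g : Module.End K W}
    (hg : ∀ z, g z = z - (b e₁ z + b f₁ z) • (e₁ + f₁) - (b e₂ z + b f₂ z) • (e₂ + f₂)) :
    g ∈ M := by
  have h5' : b e₂ e₁ = 0 := by rw [ha, h5]
  have h6' : b f₂ f₁ = 0 := by rw [ha, h6]
  have h7' : b f₂ e₁ = 0 := by rw [ha, h7]
  have h8' : b f₁ e₂ = 0 := by rw [ha, h8]
  have h9' : b f₁ e₁ = 1 := by rw [ha, h9]
  have h10' : b f₂ e₂ = 1 := by rw [ha, h10]
  have mE : 1 + XX b e₁ e₂ ∈ M := hM _ (XX_sk ha _ _) (XX_sq ha h1 h2 h5)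
  have mF : 1 + XX b f₁ f₂ ∈ M := hM _ (XX_sk ha _ _) (XX_sq ha h3 h4 h6)
  have mE' : 1 + XX b e₁ f₂ ∈ M := hM _ (XX_sk ha _ _) (XX_sq ha h1 h4 h7)
  have mF' : 1 + XX b f₁ e₂ ∈ M := hM _ (XX_sk ha _ _) (XX_sq ha h3 h2 h8')
  have key : g = (1 + XX b e₁ f₂) * (1 + XX b f₁ e₂) * (1 + XX b e₁ f₂) *
      ((1 + XX b e₁ e₂) * (1 + XX b f₁ f₂) * (1 + XX b e₁ e₂)) := by
    ext z
    rw [hg]
    simp only [Module.End.mul_apply, LinearMap.add_apply, Module.End.one_apply, XX_apply,
      map_add, map_sub, map_smul, smul_eq_mul, h1, h2, h3, h4, h5, h6, h7, h8, h9, h10,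
      h5', h6', h7', h8', h9', h10', mul_zero, mul_one, sub_zero, zero_sub, add_zero, zero_add,
      zero_smul, one_smul, map_neg, smul_zero, smul_neg, mul_neg, neg_neg, neg_zero]
    module
  rw [key]
  exact M.mul_mem (M.mul_mem (M.mul_mem mE' mF') mE') (M.mul_mem (M.mul_mem mE mF) mE)

end w

section orth
variable {K : Type*} [Field K] [CharZero K] {W : Type*} [AddCommGroup W] [Module K W]
  [FiniteDimensional K W] {b : LinearMap.BilinForm K W}

lemma refl (ha : ∀ v w, b v w = b w v) : b.IsRefl := fun v w h => by rw [ha, h]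

/-- If the orthogonal complement of `U` is totally isotropic then it is contained in `U`. -/
lemma orth_le (hb : b.Nondegenerate) (ha : ∀ v w, b v w = b w v) {U : Submodule K W}
    (h : ∀ v ∈ b.orthogonal U, b v v = 0) : b.orthogonal U ≤ U := by
  intro v hv
  have h1 : v ∈ b.orthogonal (b.orthogonal U) := by
    rw [LinearMap.BilinForm.mem_orthogonal_iff]
    intro w hw
    change b w v = 0
    have h2 := h (v + w) (Submodule.add_mem _ hv hw)
    simp only [map_add, LinearMap.add_apply, h v hv, h w hw, ha v w] at h2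
    have h3 : (2 : K) * b w v = 0 := by linear_combination h2
    exact (mul_eq_zero.1 h3).resolve_left two_ne_zero
  rwa [LinearMap.BilinForm.orthogonal_orthogonal hb (refl ha)] at h1

/-- The form is nondegenerate on `U`. -/
def ND (b : LinearMap.BilinForm K W) (U : Submodule K W) : Prop :=
  ∀ v ∈ U, (∀ w ∈ U, b v w = 0) → v = 0

omit [CharZero K] [FiniteDimensional K W] in
lemma ND.bot : ND b ⊥ := by
  intro v hv _
  simpa using hv

omit [CharZero K] in
lemma ND.ext {U : Submodule K W} (hU : ND b U) {a : W}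
    (h1 : ∀ u ∈ U, b u a = 0) (h2 : b a a ≠ 0) : ND b (U ⊔ Submodule.span K {a}) ∧
      finrank K (U ⊔ Submodule.span K {a} : Submodule K W) ≤ finrank K U + 1 := by
  constructor
  · intro v hv hvw
    obtain ⟨u, hu, x, hx, rfl⟩ := Submodule.mem_sup.1 hv
    obtain ⟨c, rfl⟩ := Submodule.mem_span_singleton.1 hx
    have h3 := hvw a (Submodule.mem_sup_right (Submodule.mem_span_singleton_self a))
    simp only [map_add, map_smul, LinearMap.add_apply, LinearMap.smul_apply, h1 u hu, zero_add,
      smul_eq_mul] at h3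
    have h4 : c = 0 := (mul_eq_zero.1 h3).resolve_right h2
    subst h4
    rw [zero_smul, add_zero] at hvw ⊢
    exact hU u hu (fun w hw => hvw w (Submodule.mem_sup_left hw))
  · refine (Submodule.finrank_add_le_finrank_add_finrank _ _).trans ?_
    have := finrank_span_le_card (R := K) ({a} : Set W)
    simp only [Set.toFinset_singleton, Finset.card_singleton] at this
    omega

/-- There is an anisotropic vector orthogonal to a nondegenerate subspace. -/
lemma ND.exists (hb : b.Nondegenerate) (ha : ∀ v w, b v w = b w v) {U : Submodule K W}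
    (hU : ND b U) (hd : finrank K U < finrank K W) : ∃ v, (∀ u ∈ U, b u v = 0) ∧ b v v ≠ 0 := by
  by_contra hcon
  push Not at hcon
  have h1 : ∀ v ∈ b.orthogonal U, b v v = 0 := by
    intro v hv
    exact hcon v (fun u hu => (LinearMap.BilinForm.mem_orthogonal_iff.1 hv) u hu)
  have h2 := orth_le hb ha h1
  have h3 := LinearMap.BilinForm.finrank_orthogonal hb U
  have h4 : b.orthogonal U = ⊥ := by
    rw [eq_bot_iff]
    intro v hv
    rw [Submodule.mem_bot]
    apply hU v (h2 hv)
    intro w hw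
    rw [ha]
    exact (LinearMap.BilinForm.mem_orthogonal_iff.1 hv) w hw
  rw [h4, finrank_bot] at h3
  omega

/-- There is an anisotropic vector orthogonal to two vectors. -/
lemma exists_perp (hb : b.Nondegenerate) (ha : ∀ v w, b v w = b w v) (hd : 4 ≤ finrank K W)
    {v w : W} (hv : b v v ≠ 0) : ∃ c, b v c = 0 ∧ b w c = 0 ∧ b c c ≠ 0 := by
  by_contra hcon
  push Not at hcon
  set U := Submodule.span K {v, w} with hU
  have hvU : v ∈ U := Submodule.subset_span (by simp)
  have hwU : w ∈ U := Submodule.subset_span (by simp)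
  have h1 : ∀ x ∈ b.orthogonal U, b x x = 0 := by
    intro x hx
    rw [LinearMap.BilinForm.mem_orthogonal_iff] at hx
    exact hcon x (hx v hvU) (hx w hwU)
  have h2 := orth_le hb ha h1
  have h3 := LinearMap.BilinForm.finrank_orthogonal hb U
  have h4 : finrank K U ≤ 2 := by
    classical
    refine (finrank_span_le_card (R := K) ({v, w} : Set W)).trans ?_
    rw [Set.toFinset_insert, Set.toFinset_singleton]
    exact Finset.card_le_two
  have h5 : b.orthogonal U = U := Submodule.eq_of_le_of_finrank_le h2 (by omega)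
  rw [← h5] at hvU
  exact hv (h1 v hvU)

end orth

section alg
variable {K : Type*} [Field K] [IsAlgClosed K] [CharZero K] {W : Type*} [AddCommGroup W]
  [Module K W] [FiniteDimensional K W] {b : LinearMap.BilinForm K W}

omit [FiniteDimensional K W] [CharZero K] in
/-- Normalisation. -/
lemma norm {a : W} (h : b a a ≠ 0) {c : K} (hc : c ≠ 0) :
    ∃ t : K, t ≠ 0 ∧ b (t • a) (t • a) = c := by
  obtain ⟨t, ht⟩ := IsAlgClosed.exists_pow_nat_eq (c / b a a) (n := 2) two_pos
  refine ⟨t, ?_, ?_⟩
  · rintro rfl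
    rw [zero_pow two_ne_zero] at ht
    exact div_ne_zero hc h ht.symm
  · simp only [map_smul, LinearMap.smul_apply, smul_eq_mul]
    rw [← mul_assoc, ← sq, ht, div_mul_cancel₀ _ h]

/-- Products of two reflections in orthogonal vectors. -/
lemma pair_mem (hb : b.Nondegenerate) (ha : ∀ v w, b v w = b w v) (hd : 4 ≤ finrank K W)
    (M : Submonoid (Module.End K W)) (hM : ∀ x, IsSk b x → x * x = 0 → 1 + x ∈ M) {u v : W}
    (hu : b u u ≠ 0) (hv : b v v ≠ 0) (huv : b u v = 0) : sR b u * sR b v ∈ M := by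
  obtain ⟨t, ht, htu⟩ := norm hu (two_ne_zero (α := K))
  obtain ⟨s, hs, hsv⟩ := norm hv (two_ne_zero (α := K))
  rw [← sR_smul ht u, ← sR_smul hs v]
  set u' := t • u with hu'
  set v' := s • v with hv'
  have huv' : b u' v' = 0 := by
    simp only [hu', hv', map_smul, LinearMap.smul_apply, huv, smul_zero]
  have hvu' : b v' u' = 0 := by rw [ha, huv']
  -- the two other vectors
  obtain ⟨n1, f1⟩ := ND.ext (b := b) (U := ⊥) ND.bot (a := u') (fun x hx => by
    rw [Submodule.mem_bot] at hx
    rw [hx, map_zero, LinearMap.zero_apply]) (by rw [htu]; exact two_ne_zero)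
  obtain ⟨n2, f2⟩ := ND.ext n1 (a := v') (fun x hx => by
    rw [bot_sup_eq] at hx
    obtain ⟨c, rfl⟩ := Submodule.mem_span_singleton.1 hx
    rw [LinearMap.map_smul₂, huv', smul_zero]) (by rw [hsv]; exact two_ne_zero)
  rw [finrank_bot] at f1
  obtain ⟨d0, hd1, hd2⟩ := ND.exists hb ha n2 (by omega)
  obtain ⟨n3, f3⟩ := ND.ext n2 hd1 hd2
  obtain ⟨e0, he1, he2⟩ := ND.exists hb ha n3 (by omega)
  have hm2 : (-2 : K) ≠ 0 := neg_ne_zero.2 two_ne_zero
  obtain ⟨p, -, hp⟩ := norm hd2 hm2
  obtain ⟨q, -, hq⟩ := norm he2 hm2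
  set d := p • d0 with hdd
  set e := q • e0 with hee
  have hud : b u' d = 0 := by
    rw [hdd, map_smul, hd1 u' (Submodule.mem_sup_left (Submodule.mem_sup_right
      (Submodule.mem_span_singleton_self _))), smul_zero]
  have hvd : b v' d = 0 := by
    rw [hdd, map_smul, hd1 v' (Submodule.mem_sup_right
      (Submodule.mem_span_singleton_self _)), smul_zero]
  have hue : b u' e = 0 := by
    rw [hee, map_smul, he1 u' (Submodule.mem_sup_left (Submodule.mem_sup_left
      (Submodule.mem_sup_right (Submodule.mem_span_singleton_self _)))), smul_zero]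
  have hve : b v' e = 0 := by
    rw [hee, map_smul, he1 v' (Submodule.mem_sup_left (Submodule.mem_sup_right
      (Submodule.mem_span_singleton_self _))), smul_zero]
  have hde : b d e = 0 := by
    rw [hee, hdd, map_smul, map_smul, LinearMap.smul_apply, he1 d0 (Submodule.mem_sup_right
      (Submodule.mem_span_singleton_self _)), smul_zero, smul_zero]
  have hdu : b d u' = 0 := by rw [ha, hud]
  have hdv : b d v' = 0 := by rw [ha, hvd]
  have heu : b e u' = 0 := by rw [ha, hue]
  have hev : b e v' = 0 := by rw [ha, hve]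
  have hed : b e d = 0 := by rw [ha, hde]
  apply six ha M hM (e₁ := (2 : K)⁻¹ • (u' + d)) (e₂ := (2 : K)⁻¹ • (v' + e))
    (f₁ := (2 : K)⁻¹ • (u' - d)) (f₂ := (2 : K)⁻¹ • (v' - e))
  case hg =>
    intro z
    rw [Module.End.mul_apply, sR_apply, sR_apply, htu, hsv, div_self two_ne_zero, one_smul,
      one_smul]
    simp only [map_sub, map_add, map_smul, LinearMap.sub_apply, LinearMap.add_apply,
      LinearMap.smul_apply, smul_eq_mul, huv', mul_zero, sub_zero]
    match_scalars <;> ring
  all_goals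
    simp only [map_sub, map_add, map_smul, LinearMap.sub_apply, LinearMap.add_apply,
      LinearMap.smul_apply, smul_eq_mul, huv', hvu', htu, hsv, hp, hq, hud, hvd, hue, hve, hde,
      hdu, hdv, heu, hev, hed]
    ring

/-- Products of two reflections. -/
lemma refl_mem (hb : b.Nondegenerate) (ha : ∀ v w, b v w = b w v) (hd : 4 ≤ finrank K W)
    (M : Submonoid (Module.End K W)) (hM : ∀ x, IsSk b x → x * x = 0 → 1 + x ∈ M) {u v : W}
    (hu : b u u ≠ 0) (hv : b v v ≠ 0) : sR b u * sR b v ∈ M := by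
  obtain ⟨c, h1, h2, h3⟩ := exists_perp hb ha hd (v := u) (w := v) hu
  have h4 : sR b u * sR b v = (sR b u * sR b c) * (sR b c * sR b v) := by
    rw [mul_assoc, ← mul_assoc (sR b c), sR_sq h3, one_mul]
  rw [h4]
  exact M.mul_mem (pair_mem hb ha hd M hM hu h3 h1)
    (pair_mem hb ha hd M hM h3 hv (by rw [ha, h2]))

end alg

end SOG

section SoG
variable {K : Type*} [Field K] [IsAlgClosed K] [CharZero K] {W : Type*} [AddCommGroup W]
  [Module K W] [FiniteDimensional K W] {b : LinearMap.BilinForm K W}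

theorem so_gen (hb : b.Nondegenerate) (ha : ∀ v w, b v w = b w v) (hd : 4 ≤ finrank K W)
    (M : Submonoid (Module.End K W))
    (hM : ∀ x, IsSk b x → x * x = 0 → 1 + x ∈ M) {g : Module.End K W}
    (hg : ∀ v w, b (g v) (g w) = b v w) (hdet : LinearMap.det g = 1) : g ∈ M := by
  let e := finBasis K W
  set J := LinearMap.BilinForm.toMatrix e b with hJ
  have hJb : ∀ x y, x ⬝ᵥ J.mulVec y = b (e.equivFun.symm x) (e.equivFun.symm y) :=
    fun x y => LinearMap.BilinForm.dotProduct_toMatrix_mulVec e b x y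
  have hJt : J.transpose = J := by
    ext i j
    rw [Matrix.transpose_apply, hJ, LinearMap.BilinForm.toMatrix_apply,
      LinearMap.BilinForm.toMatrix_apply, ha]
  have hJd : J.det ≠ 0 := (LinearMap.BilinForm.nondegenerate_iff_det_ne_zero e).1 hb
  have hφ : ∀ (A : Matrix _ _ K) x, Matrix.toLinAlgEquiv e A (e.equivFun.symm x) =
      e.equivFun.symm (A.mulVec x) := by
    intro A x
    rw [Matrix.toLinAlgEquiv_apply, e.equivFun_symm_apply (A.mulVec x)]
    congr! 4
    exact e.equivFun.apply_symm_apply x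
  have hrf : ∀ v, Matrix.toLinAlgEquiv e (OR.rfn J v) = SOG.sR b (e.equivFun.symm v) := by
    intro v
    ext z
    obtain ⟨x, rfl⟩ := e.equivFun.symm.surjective z
    rw [hφ, OR.GR1.rfn_mulVec hJt, SOG.sR_apply, map_sub, map_smul, hJb, hJb, smul_smul]
    congr 2
    ring
  have key : LinearMap.toMatrixAlgEquiv e g ∈
      M.comap (Matrix.toLinAlgEquiv e : Matrix _ _ K →* Module.End K W) := by
    apply OR.isom_mem hJt hJd
    · intro v w hv hw
      rw [Submonoid.mem_comap]
      change Matrix.toLinAlgEquiv e (OR.rfn J v * OR.rfn J w) ∈ M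
      rw [map_mul, hrf, hrf]
      rw [hJb] at hv hw
      exact SOG.refl_mem hb ha hd M hM hv hw
    · apply OR.GR1.isom_of_b
      intro x y
      rw [hJb, hJb, ← hφ, ← hφ, Matrix.toLinAlgEquiv_toMatrixAlgEquiv, hg]
    · rw [← hdet]
      exact LinearMap.det_toMatrix e g
  rw [Submonoid.mem_comap] at key
  change Matrix.toLinAlgEquiv e (LinearMap.toMatrixAlgEquiv e g) ∈ M at key
  rwa [Matrix.toLinAlgEquiv_toMatrixAlgEquiv] at key

end SoG

end AV
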