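import Pool.Agent.Helper2.AV.TDefs
import Pool.Agent.Helper2.AV.MB
import Pool.Agent.Helper14.AV.DAa
import Pool.Agent.Helper55.AV.DAb
import Pool.Agent.Helper20.AV.SG
import Pool.Agent.Helper20.UN.SG

/-!
Block GR: a group whose Lie algebra is as large as possible contains the derived group of the
Lefschetz group.
-/

set_option linter.unusedSimpArgs false
set_option linter.unusedSectionVars false
set_option linter.unusedVariables false

open Module

attribute [local instance 100] LieRing.ofAssociativeRing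

namespace AV

open MTP UN

namespace GRP

section adj
variable {K : Type*} [Field K] {V : Type*} [AddCommGroup V] [Module K V]
  {ω : LinearMap.BilinForm K V}

lemma adj_uniq (hω : ω.Nondegenerate) {a b b' : Module.End K V} (h : IsAdj ω a b)
    (h' : IsAdj ω a b') : b = b' := by
  apply LinearMap.ext
  intro w
  rw [← sub_eq_zero]
  apply hω.2
  intro v
  rw [map_sub, ← h, ← h', sub_self]

lemma adj_symm (ha : ω.IsAlt) {a b : Module.End K V} (h : IsAdj ω a b) : IsAdj ω b a := by
  intro v w
  rw [← ha.neg_eq, ← h, ha.neg_eq]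

lemma adj_sub {x y x' y' : Module.End K V} (h : IsAdj ω x x') (h' : IsAdj ω y y') :
    IsAdj ω (x - y) (x' - y') := by
  intro v w
  rw [LinearMap.sub_apply, map_sub, LinearMap.sub_apply, h, h', LinearMap.sub_apply, map_sub]

variable [FiniteDimensional K V]

/-- The adjoint of an isometry is its inverse. -/
lemma iso_inv (hω : ω.Nondegenerate) {g g' : Module.End K V}
    (hg : ∀ v w, ω (g v) (g w) = ω v w) (h : IsAdj ω g g') : g' * g = 1 ∧ g * g' = 1 := by
  have h1 : g' * g = 1 := by
    apply LinearMap.ext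
    intro w
    rw [← sub_eq_zero]
    apply hω.2
    intro v
    rw [map_sub, Module.End.mul_apply, ← h, hg, Module.End.one_apply, sub_self]
  exact ⟨h1, (mul_eq_one_comm).1 h1⟩

lemma iso_of_skew {z : Module.End K V} (hz : IsSk ω z) (hzz : z * z = 0) (v w : V) :
    ω ((1 + z) v) ((1 + z) w) = ω v w := by
  have h1 : ω (z v) (z w) = 0 := by
    rw [hz, ← Module.End.mul_apply, hzz, LinearMap.zero_apply, map_zero, neg_zero]
  simp only [LinearMap.add_apply, Module.End.one_apply, map_add, h1, hz v w]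
  ring

lemma trace_zero_of_sq {V : Type*} [AddCommGroup V] [Module K V] [FiniteDimensional K V]
    {z : Module.End K V} (hzz : z * z = 0) : LinearMap.trace K V z = 0 := by
  have h1 : IsNilpotent z := ⟨2, by rw [sq, hzz]⟩
  have h2 := LinearMap.isNilpotent_trace_of_isNilpotent h1
  exact h2.eq_zero

end adj

section M
variable {K : Type*} [Field K] [IsAlgClosed K] [CharZero K] {V : Type*} [AddCommGroup V]
  [Module K V] [FiniteDimensional K V]
  {ω : LinearMap.BilinForm K V} {G : Set (Module.End K V)}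
  {T : Set (Module.End K V ≃+* Module.End K V)} {p0 : Module.End K V}

/-- `γ` is an isometry in `G` trivial on all blocks different from `ε` and its adjoint. -/
structure Co (ω : LinearMap.BilinForm K V) (G : Set (Module.End K V))
    (T : Set (Module.End K V ≃+* Module.End K V)) (p0 ε γ : Module.End K V) : Prop where
  mem : γ ∈ G
  memA : γ ∈ AA G T p0
  iso : ∀ v w, ω (γ v) (γ w) = ω v w
  out : ∀ δ, Bl (AA G T p0) δ → δ ≠ ε → ¬ IsAdj ω ε δ → γ * δ = δ

lemma rw_mul {W : Submodule K V} {x y : Module.End K V} (hx : ∀ w ∈ W, x w ∈ W)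
    (hy : ∀ w ∈ W, y w ∈ W) : Rw W (x * y) = Rw W x * Rw W y := by
  apply LinearMap.ext
  intro w
  apply Subtype.ext
  rw [Rw_coe (fun w hw => by rw [Module.End.mul_apply]; exact hx _ (hy _ hw)),
    Module.End.mul_apply, Module.End.mul_apply, Rw_coe hx, Rw_coe hy]

lemma rw_one {W : Submodule K V} : Rw W (1 : Module.End K V) = 1 := by
  apply LinearMap.ext
  intro w
  apply Subtype.ext
  rw [Rw_coe (fun w hw => hw)]
  rfl

/-- The monoid of the operators on `W` coming from such elements. -/
def Mo (D : MStr ω G T p0) {ε : Module.End K V} {W : Submodule K V}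
    (hW : Irr (AA G T p0 : Set (Module.End K V)) W) : Submonoid (Module.End K W) where
  carrier := {φ | ∃ γ, Co ω G T p0 ε γ ∧ Rw W γ = φ}
  one_mem' := ⟨1, ⟨D.one, Subalgebra.one_mem _, fun v w => rfl, fun δ _ _ _ => one_mul _⟩,
    rw_one⟩
  mul_mem' := by
    rintro _ _ ⟨γ, h, rfl⟩ ⟨γ', h', rfl⟩
    refine ⟨γ * γ', ⟨D.mul _ h.mem _ h'.mem, Subalgebra.mul_mem _ h.memA h'.memA, ?_, ?_⟩, ?_⟩
    · intro v w
      rw [Module.End.mul_apply, Module.End.mul_apply, h.iso, h'.iso]
    · intro δ hδ h1 h2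
      rw [mul_assoc, h'.out δ hδ h1 h2, h.out δ hδ h1 h2]
    · exact rw_mul (fun w hw => hW.st _ h.memA w hw) (fun w hw => hW.st _ h'.memA w hw)

/-- Unipotent elements. -/
lemma mem_Mo (D : MStr ω G T p0) (hf : FullM ω G T p0)
    (hexp : ∀ x ∈ ML G T p0, x * x = 0 → 1 + x ∈ G) {ε : Module.End K V} {W : Submodule K V}
    (hW : Irr (AA G T p0 : Set (Module.End K V)) W) {z : Module.End K V} (hz : z ∈ AA G T p0)
    (hsk : IsSk ω z) (hzz : z * z = 0)
    (hout : ∀ δ, Bl (AA G T p0) δ → δ ≠ ε → ¬ IsAdj ω ε δ → z * δ = 0) :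
    1 + Rw W z ∈ Mo D (ε := ε) hW := by
  have hzm : z ∈ ML G T p0 := by
    apply hf z hz hsk
    intro δ hδ
    apply trace_zero_of_sq
    calc z * δ * (z * δ) = z * (δ * z) * δ := by simp only [mul_assoc]
      _ = z * (z * δ) * δ := by rw [hδ.cen z hz]
      _ = (z * z) * (δ * δ) := by simp only [mul_assoc]
      _ = 0 := by rw [hzz, zero_mul]
  refine ⟨1 + z, ⟨hexp z hzm hzz, Subalgebra.add_mem _ (Subalgebra.one_mem _) hz,
    iso_of_skew hsk hzz, ?_⟩, ?_⟩
  · intro δ hδ h1 h2
    rw [add_mul, one_mul, hout δ hδ h1 h2, add_zero]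
  · rw [map_add, rw_one]

/-- The component of `g` in a block and its adjoint. -/
lemma exists_co (D : MStr ω G T p0) (hf : FullM ω G T p0)
    (hexp : ∀ x ∈ ML G T p0, x * x = 0 → 1 + x ∈ G) {ε : Module.End K V}
    (hε : Bl (AA G T p0) ε) {W : Submodule K V}
    (hW : Irr (AA G T p0 : Set (Module.End K V)) W) (hWε : InB ε W)
    (ht : TyU ω ε W ∨ TyS ω (AA G T p0) ε W ∨ TyO ω (AA G T p0) ε W) {g : Module.End K V}
    (hgA : g ∈ AA G T p0) (hgi : ∀ v w, ω (g v) (g w) = ω v w)
    (hdet : LinearMap.det (Rw W g) = 1) :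
    ∃ γ, Co ω G T p0 ε γ ∧ Rw W γ = Rw W g := by
  have R := SS.rs D.ssA hε hW hWε
  obtain ⟨g', hg'A, hgg', -⟩ := D.exists_adj hgA
  obtain ⟨hg1, hg2⟩ := iso_inv D.nd hgi hgg'
  suffices h : Rw W g ∈ Mo D (ε := ε) hW from h
  -- isometry for the form of a self dual block
  have hiso : ∀ b : LinearMap.BilinForm K W, Fm ω (AA G T p0) ε W b →
      ∀ v w, b (Rw W g v) (Rw W g w) = b v w := by
    intro b hb v w
    rw [hb.adj g hgA g' hg'A hgg' v (Rw W g w)]
    congr 1
    apply Subtype.ext
    rw [Rw_coe (fun w hw => hW.st _ hg'A w hw), Rw_coe (fun w hw => hW.st _ hgA w hw),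
      ← Module.End.mul_apply, hg1, Module.End.one_apply]
  -- unipotent elements in the self dual case
  have hsd : ∀ b : LinearMap.BilinForm K W, Fm ω (AA G T p0) ε W b →
      ∀ x, IsSk b x → x * x = 0 → 1 + x ∈ Mo D (ε := ε) hW := by
    intro b hb N hN hNN
    obtain ⟨x, hx, rfl⟩ := R.surj N
    have hxx : x * x = 0 := R.inj _ (R.mul x hx x hx) (by rw [R.hom x hx x hx, hNN])
    apply mem_Mo D hf hexp hW hx.1 ((hb.sk x hx.1 hx.2).2 hN) hxx
    intro δ hδ h1 _
    rw [← hx.2, mul_assoc, hε.orth hδ h1.symm, mul_zero]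
  rcases ht with ht | ht | ht
  · apply sl_mem_of_transvections _ _ hdet
    intro N hNN _
    obtain ⟨x, hx, rfl⟩ := R.surj N
    have hxx : x * x = 0 := R.inj _ (R.mul x hx x hx) (by rw [R.hom x hx x hx, hNN])
    obtain ⟨x', hx'A, hxx', -⟩ := D.exists_adj hx.1
    obtain ⟨ε', hε', hεε', -⟩ := D.adj_bl hε
    have hne : ε ≠ ε' := by
      rintro rfl
      exact ht.1 hεε'
    -- `x'` lies in the adjoint block
    have h1 : x' * ε' = x' := by
      rw [← hε'.cen x' hx'A]
      apply adj_uniq D.nd _ hxx'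
      have h2 : IsAdj ω (x * ε) (ε' * x') := by
        intro v w
        rw [Module.End.mul_apply, Module.End.mul_apply, hxx', hεε']
      rwa [hx.2] at h2
    have h2 : x' * x' = 0 := by
      apply adj_uniq D.nd (a := x * x)
      · intro v w
        rw [Module.End.mul_apply, Module.End.mul_apply, hxx', hxx']
      · rw [hxx]
        intro v w
        simp
    have h3 : x * x' = 0 := by
      have : x * x' = x * (ε * ε') * x' := by
        have e2 : ε' * x' = x' := by rw [hε'.cen x' hx'A, h1]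
        calc x * x' = (x * ε) * (ε' * x') := by rw [hx.2, e2]
          _ = _ := by simp only [mul_assoc]
      rw [this, hε.orth hε' hne, mul_zero, zero_mul]
    have h4 : x' * x = 0 := by
      have : x' * x = x' * (ε' * ε) * x := by
        have e2 : ε * x = x := by rw [hε.cen x hx.1, hx.2]
        calc x' * x = (x' * ε') * (ε * x) := by rw [h1, e2]
          _ = _ := by simp only [mul_assoc]
      rw [this, hε'.orth hε hne.symm, mul_zero, zero_mul]
    have h5 : Rw W (x - x') = Rw W x := by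
      apply LinearMap.ext
      intro w
      apply Subtype.ext
      rw [Rw_coe (fun w hw => hW.st _ (Subalgebra.sub_mem _ hx.1 hx'A) w hw),
        Rw_coe (fun w hw => hW.st _ hx.1 w hw), LinearMap.sub_apply]
      have : x' (w : V) = 0 := by
        rw [← hWε w w.2, ← h1, ← Module.End.mul_apply, mul_assoc, hε'.orth hε hne.symm,
          mul_zero, LinearMap.zero_apply]
      rw [this, sub_zero]
    rw [← h5]
    apply mem_Mo D hf hexp hW (Subalgebra.sub_mem _ hx.1 hx'A)
    · intro v w
      have h6 := adj_sub hxx' (adj_symm D.alt hxx') v w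
      rw [h6, ← map_neg, ← LinearMap.neg_apply, neg_sub]
    · rw [sub_mul, mul_sub, mul_sub, hxx, h2, h3, h4]
      simp
    · intro δ hδ h6 h7
      have h8 : ε' ≠ δ := by
        rintro rfl
        exact h7 hεε'
      rw [sub_mul, ← hx.2, ← h1, mul_assoc, mul_assoc, hε.orth hδ h6.symm, hε'.orth hδ h8,
        mul_zero, mul_zero, sub_zero]
  · obtain ⟨hs, b, hb, hba⟩ := ht
    exact sp_gen hb.nd hba _ (hsd b hb) (hiso b hb)
  · obtain ⟨hs, he, hd, b, hb, hba⟩ := ht
    exact so_gen hb.nd hba (by omega) _ (hsd b hb) (hiso b hb) hdet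

/-- Components agreeing on `W` agree on the block and on its adjoint. -/
lemma co_eq (D : MStr ω G T p0) {ε : Module.End K V}
    (hε : Bl (AA G T p0) ε) {W : Submodule K V}
    (hW : Irr (AA G T p0 : Set (Module.End K V)) W) (hWε : InB ε W) {g γ : Module.End K V}
    (hgA : g ∈ AA G T p0) (hgi : ∀ v w, ω (g v) (g w) = ω v w) (hγA : γ ∈ AA G T p0)
    (hγi : ∀ v w, ω (γ v) (γ w) = ω v w) (h : Rw W γ = Rw W g) :
    γ * ε = g * ε ∧ ∀ δ, Bl (AA G T p0) δ → IsAdj ω ε δ → γ * δ = g * δ := by
  have R := SS.rs D.ssA hε hW hWε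
  have h1 : γ * ε = g * ε := by
    rw [← sub_eq_zero, ← sub_mul]
    apply R.inj
    · refine ⟨Subalgebra.mul_mem _ (Subalgebra.sub_mem _ hγA hgA) hε.mem, ?_⟩
      rw [mul_assoc, hε.idem]
    · apply LinearMap.ext
      intro w
      apply Subtype.ext
      rw [Rw_coe (fun w hw => hW.st _ (Subalgebra.mul_mem _ (Subalgebra.sub_mem _ hγA hgA)
        hε.mem) w hw), Module.End.mul_apply, hWε w w.2, LinearMap.sub_apply,
        LinearMap.zero_apply, ← Rw_coe (fun w hw => hW.st _ hγA w hw) w, h,
        Rw_coe (fun w hw => hW.st _ hgA w hw) w, sub_self]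
      rfl
  refine ⟨h1, ?_⟩
  intro δ hδ hεδ
  obtain ⟨g', hg'A, hgg', -⟩ := D.exists_adj hgA
  obtain ⟨hg1, hg2⟩ := iso_inv D.nd hgi hgg'
  have hδε := adj_symm D.alt hεδ
  have h2 : ∀ f ∈ AA G T p0, f * ε = ε * f := fun f hf => (hε.cen f hf).symm
  have h3 : ∀ f ∈ AA G T p0, f * δ = δ * f := fun f hf => (hδ.cen f hf).symm
  rw [← sub_eq_zero]
  apply LinearMap.ext
  intro v
  apply D.nd.1
  intro u
  -- write `u = g u'`
  obtain ⟨w, rfl⟩ : ∃ w, u = g w := ⟨g' u, by rw [← Module.End.mul_apply, hg2]; rfl⟩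
  have h4 : ∀ f ∈ AA G T p0, (∀ v w, ω (f v) (f w) = ω v w) →
      ω ((f * δ) v) ((f * ε) w) = ω (δ v) (ε w) := by
    intro f _ hfi
    rw [Module.End.mul_apply, Module.End.mul_apply, hfi]
  have h5 : ∀ f ∈ AA G T p0, ω ((f * δ) v) (g w) = ω ((f * δ) v) ((g * ε) w) := by
    intro f hf
    have e1 : f * δ = δ * (f * δ) := by rw [← mul_assoc, ← h3 f hf, mul_assoc, hδ.idem]
    rw [e1, Module.End.mul_apply, hδε, hδε, ← Module.End.mul_apply, ← Module.End.mul_apply,
      h2 g hgA, ← mul_assoc, hε.idem]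
  rw [LinearMap.sub_apply, map_sub, LinearMap.sub_apply, h5 γ hγA, h5 g hgA, h4 g hgA hgi,
    ← h1, h4 γ hγA hγi, sub_self]

end M

end GRP

section GR
variable {K : Type*} [Field K] [IsAlgClosed K] [CharZero K] {V : Type*} [AddCommGroup V]
  [Module K V] [FiniteDimensional K V]
  {ω : LinearMap.BilinForm K V} {G : Set (Module.End K V)}
  {T : Set (Module.End K V ≃+* Module.End K V)} {p0 : Module.End K V}

/-- GR -/
theorem MStr.mem_of_full (D : MStr ω G T p0) (hf : FullM ω G T p0)
    (ht : ∀ ε, Bl (AA G T p0) ε → ∃ W, Irr (AA G T p0 : Set (Module.End K V)) W ∧ InB ε W ∧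
      (TyU ω ε W ∨ TyS ω (AA G T p0) ε W ∨ TyO ω (AA G T p0) ε W))
    (hexp : ∀ x ∈ ML G T p0, x * x = 0 → 1 + x ∈ G) {g : Module.End K V}
    (hgA : g ∈ AA G T p0) (hgi : ∀ v w, ω (g v) (g w) = ω v w)
    (hdet : ∀ W, Irr (AA G T p0 : Set (Module.End K V)) W → LinearMap.det (Rw W g) = 1) :
    g ∈ G := by
  classical
  have main : ∀ (n : ℕ) (g : Module.End K V), g ∈ AA G T p0 →
      (∀ v w, ω (g v) (g w) = ω v w) →
      (∀ ε, Bl (AA G T p0) ε → ∀ W, Irr (AA G T p0 : Set (Module.End K V)) W → InB ε W →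
        LinearMap.det (Rw W g) = 1) →
      ((bls (AA G T p0)).filter (fun ε => g * ε ≠ ε)).card = n → g ∈ G := by
    intro n
    induction n using Nat.strong_induction_on with
    | _ n ih =>
      intro g hgA hgi hdet hn
      by_cases h0 : ∀ ε, Bl (AA G T p0) ε → g * ε = ε
      · have h1 : g = 1 := by
          rw [← mul_one g, ← sum_bls (AA G T p0), Finset.mul_sum]
          apply Finset.sum_congr rfl
          intro ε hε
          exact h0 ε (mem_bls.1 hε)
        rw [h1]
        exact D.one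
      push Not at h0
      obtain ⟨ε, hε, hgε⟩ := h0
      obtain ⟨W, hW, hWε, hty⟩ := ht ε hε
      obtain ⟨γ, hγ, hγg⟩ := GRP.exists_co D hf hexp hε hW hWε hty hgA hgi
        (hdet ε hε W hW hWε)
      obtain ⟨e1, e2⟩ := GRP.co_eq D hε hW hWε hgA hgi hγ.memA hγ.iso hγg
      obtain ⟨γ', hγ'A, hγγ', -⟩ := D.exists_adj hγ.memA
      obtain ⟨i1, i2⟩ := GRP.iso_inv D.nd hγ.iso hγγ'
      -- `γ'` is in the group
      have hγ'G : γ' ∈ G := by
        obtain ⟨h, hh, h1, h2⟩ := D.inv γ hγ.mem
        have : γ' = h := by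
          calc γ' = γ' * (γ * h) := by rw [h1, mul_one]
            _ = h := by rw [← mul_assoc, i1, one_mul]
        rwa [this]
      have hγ'i : ∀ v w, ω (γ' v) (γ' w) = ω v w := by
        intro v w
        rw [← hγ.iso, ← Module.End.mul_apply, ← Module.End.mul_apply, i2]
        rfl
      have hprod : γ * (γ' * g) = g := by rw [← mul_assoc, i2, one_mul]
      have hA : γ' * g ∈ AA G T p0 := Subalgebra.mul_mem _ hγ'A hgA
      -- the trivial blocks
      have t1 : (γ' * g) * ε = ε := by rw [mul_assoc, ← e1, ← mul_assoc, i1, one_mul]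
      have t2 : ∀ δ, Bl (AA G T p0) δ → IsAdj ω ε δ → (γ' * g) * δ = δ := by
        intro δ hδ hεδ
        rw [mul_assoc, ← e2 δ hδ hεδ, ← mul_assoc, i1, one_mul]
      have t3 : ∀ δ, Bl (AA G T p0) δ → δ ≠ ε → ¬ IsAdj ω ε δ →
          (γ' * g) * δ = g * δ := by
        intro δ hδ h1 h2
        have h3 := hγ.out δ hδ h1 h2
        have h4 : γ' * δ = δ := by
          nth_rewrite 1 [← h3]
          rw [← mul_assoc, i1, one_mul]
        rw [mul_assoc, ← hδ.cen g hgA, ← mul_assoc, h4]
      have hmem : γ' * g ∈ G := by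
        refine ih _ ?_ (γ' * g) hA ?_ ?_ rfl
        · rw [← hn]
          apply Finset.card_lt_card
          rw [Finset.ssubset_iff_of_subset]
          · refine ⟨ε, ?_, ?_⟩
            · rw [Finset.mem_filter]
              exact ⟨mem_bls.2 hε, hgε⟩
            · rw [Finset.mem_filter]
              exact fun h => h.2 t1
          · intro δ hδ
            rw [Finset.mem_filter] at hδ ⊢
            refine ⟨hδ.1, ?_⟩
            have hδ' := mem_bls.1 hδ.1
            by_cases h1 : δ = ε
            · subst h1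
              exact absurd t1 hδ.2
            by_cases h2 : IsAdj ω ε δ
            · exact absurd (t2 δ hδ' h2) hδ.2
            · rw [← t3 δ hδ' h1 h2]
              exact hδ.2
        · intro v w
          rw [Module.End.mul_apply, Module.End.mul_apply, hγ'i, hgi]
        · intro δ hδ U hU hUδ
          have hval : ∀ f ∈ AA G T p0, ∀ f' ∈ AA G T p0, f * δ = f' * δ → Rw U f = Rw U f' := by
            intro f hf f' hf' he
            apply LinearMap.ext
            intro w
            apply Subtype.ext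
            rw [Rw_coe (fun w hw => hU.st _ hf w hw), Rw_coe (fun w hw => hU.st _ hf' w hw),
              ← hUδ w w.2, ← Module.End.mul_apply, ← Module.End.mul_apply, he]
          by_cases h1 : (γ' * g) * δ = δ
          · rw [hval _ hA 1 (Subalgebra.one_mem _) (by rw [h1, one_mul]), GRP.rw_one,
              map_one]
          · have h2 : (γ' * g) * δ = g * δ := by
              by_cases h2 : δ = ε
              · subst h2
                exact absurd t1 h1
              by_cases h3 : IsAdj ω ε δ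
              · exact absurd (t2 δ hδ h3) h1
              · exact t3 δ hδ h2 h3
            rw [hval _ hA g hgA h2]
            exact hdet δ hδ U hU hUδ
      rw [← hprod]
      exact D.mul _ hγ.mem _ hmem
  exact main _ g hgA hgi (fun ε _ W hW _ => hdet W hW) rfl
end GR

end AV
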